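import Pool.Agent.MP_e4ecdb_ag.DSeven
import Pool.Agent.MP_e4ecdb_ag.DExN
import Pool.Agent.MP_e4ecdb_ag.DVoid
open Module
open Pool.Agent.MP_e4ecdb_ag.SYZ

namespace Pool.Agent.Results.MP_e4ecdb_ag.ClassesWithoutPairs

/-- Let `X = V / Γ` be a primitive symplectic variety which is a finite quotient of a complex torus,
`dim X = dim V > 0`, and let `r = h^{1,1}(X)`, so `b_2(X) = r + 2`. Its deformations are
`X_h = V / (h Γ h⁻¹)`, where `h` is in `Def Γ`: a real-linear automorphism of `V` which commutes with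
the linear parts of `Γ`. A pair is an `X_h` with a nef line bundle `L` such that `c_1(L) ≠ 0` and
`q(L) = 0` for a Beauville-Bogomolov-Fujiki form `q`.

(1) If `dim X = 2 n` with `n` odd, then some `X_h` has a pair if and only if `b_2(X) ≥ 4`.
(2) For every `X`, if `r ≥ 2` and no `X_h` has a pair, then `2 r` divides `dim X` and the dimension of
the fixed space of every linear part of `Γ`. (So some `X_h` has a pair if `r ≥ 2` and some linear part
is a symplectic reflection.)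
(3) For every `m` there is such an `X` with `dim X = 8 (m + 1)` and `b_2(X) = 4` such that `q(L) = 0`
implies `c_1(L) = 0`, for every line bundle `L` on every `X_h` and every `q`. -/
theorem result :
    (∀ (V : Type) [NormedAddCommGroup V] [NormedSpace ℂ V] [FiniteDimensional ℂ V] [Nontrivial V]
      (Γ : Subgroup (Equiv.Perm V)) (σ : LinearMap.BilinForm ℂ V), IsCryst Γ → IsPrimSympl Γ σ →
      (¬ 4 ∣ finrank ℂ V → ((∃ h ∈ Def Γ, HasPair (conj h Γ)) ↔ 2 ≤ h11 Γ)) ∧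
      (2 ≤ h11 Γ → (∀ h ∈ Def Γ, ¬ HasPair (conj h Γ)) → Divisible Γ)) ∧
    ∀ m : ℕ, ∃ (V : Type) (_ : NormedAddCommGroup V) (_ : NormedSpace ℂ V)
      (Γ : Subgroup (Equiv.Perm V)) (σ : LinearMap.BilinForm ℂ V), finrank ℂ V = 8 * (m + 1) ∧
      IsCryst Γ ∧ IsPrimSympl Γ σ ∧ h11 Γ = 2 ∧ NoIsotropic Γ := by
  constructor
  · intro V _ _ _ _ Γ σ hΓ hσ
    have key : 2 ≤ h11 Γ → (∀ h ∈ Def Γ, ¬ HasPair (conj h Γ)) → Divisible Γ := by
      intro h2 hno
      refine struct hΓ hσ fun hr => ?_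
      obtain ⟨h, hh, hp⟩ := (criterion hΓ hσ).2 ⟨h2, hr⟩
      exact hno h hh hp
    refine ⟨fun h4 => ⟨fun hp => ((criterion hΓ hσ).1 hp).1, fun h2 => ?_⟩, key⟩
    by_contra hno
    push Not at hno
    have h5 := (key h2 hno).1
    apply h4
    obtain ⟨c1, -⟩ := card hΓ hσ
    refine Dvd.dvd.trans ?_ h5
    rcases c1 with c1 | c1 | c1
    · omega
    · rw [c1]
    · rw [c1]
      norm_num
  · intro m
    have hΓ := Pool.Agent.MP_e4ecdb_ag.DEx.crystM m
    have hσ := Pool.Agent.MP_e4ecdb_ag.DEx.primSymplM m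
    refine ⟨Pool.Agent.MP_e4ecdb_ag.DEx.VM m, inferInstance, inferInstance,
      Pool.Agent.MP_e4ecdb_ag.DEx.GM m, Pool.Agent.MP_e4ecdb_ag.DEx.SM m,
      Pool.Agent.MP_e4ecdb_ag.DEx.finrank_VM m, hΓ, hσ, Pool.Agent.MP_e4ecdb_ag.DEx.h11_GM m,
      fun h hh q e H hq he hH h0 => ?_⟩
    by_contra hne
    have hp : HasPair (conj h (Pool.Agent.MP_e4ecdb_ag.DEx.GM m)) :=
      (hasPair_iff' (conj_cryst hΓ hh) (conj_prim hΓ hσ hh)).2 ⟨q, e, H, hq, he, hH, hne, h0⟩
    exact Pool.Agent.MP_e4ecdb_ag.DEx.irrM m ((criterion hΓ hσ).1 ⟨h, hh, hp⟩).2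

end Pool.Agent.Results.MP_e4ecdb_ag.ClassesWithoutPairs
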