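import Pool.Agent.MP_e4ecdb_ag.DSeven
open Module
open Pool.Agent.MP_e4ecdb_ag.SYZ

namespace Pool.Agent.Results.MP_e4ecdb_ag.DeformationClasses

/-- Let `X = V / Γ` be a primitive symplectic variety which is a finite quotient of a complex torus,
`dim X = dim V > 0`, with symplectic form `σ`, `r = h^{1,1}(X)` (so `b_2(X) = r + 2`) and `g` linear
parts. Its deformations are `X_h = V / (h Γ h⁻¹)`, where `h` is in `Def Γ`: a real-linear automorphism
of `V` which commutes with the linear parts of `Γ`. A pair is an `X_h` with a nef line bundle `L` such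
that `c_1(L) ≠ 0` and `q(L) = 0` for a Beauville-Bogomolov-Fujiki form `q`.

(1) Every `X_h` is primitive symplectic, with the same `σ` and `r`. On EVERY `X_h` and for every
pseudoeffective line bundle `L` on `X_h` with `c_1(L) ≠ 0` and `q(L) = 0`, the linear system `|L^N|` is
base point free and defines the Lagrangian fibration `X_h → (V / K) / Γ`, for all positive multiples
`N` of `3 g ^ 2`, the same for all `h`. `X_h` has a pair as soon as it has any line bundle `L` with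
`c_1(L) ≠ 0` and `q(L) = 0`.
(2) Some `X_h` has a pair if and only if `r ≥ 2` and the lattice of `Γ` is rationally reducible: some
real subspace `W ≠ 0, V` is stable under the linear parts and is spanned by lattice vectors.
(3) If some `X_h` has a pair, then the `X_h` with a pair are dense: every `h` in `Def Γ` is a limit of
such `h'`. -/
theorem result {V : Type} [NormedAddCommGroup V] [NormedSpace ℂ V] [FiniteDimensional ℂ V]
    [Nontrivial V] (Γ : Subgroup (Equiv.Perm V)) (hΓ : IsCryst Γ)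
    (σ : LinearMap.BilinForm ℂ V) (hσ : IsPrimSympl Γ σ) :
    (∀ h ∈ Def Γ, IsCryst (conj h Γ) ∧ IsPrimSympl (conj h Γ) σ ∧ h11 (conj h Γ) = h11 Γ ∧
      (∀ q e H, IsBBF (conj h Γ) q → IsFactor (conj h Γ) e → IsChern (conj h Γ) e H →
        IsPsef (conj h Γ) H → H ≠ 0 → q H = 0 → ∃ K ∈ RatStable (conj h Γ), IsLagr σ K ∧
          ∀ N : ℕ, 1 ≤ N → 3 * numLin Γ ^ 2 ∣ N → InducesAt (conj h Γ) e K N) ∧
      (HasPair (conj h Γ) ↔ ∃ q e H, IsBBF (conj h Γ) q ∧ IsFactor (conj h Γ) e ∧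
        IsChern (conj h Γ) e H ∧ H ≠ 0 ∧ q H = 0)) ∧
    ((∃ h ∈ Def Γ, HasPair (conj h Γ)) ↔ 2 ≤ h11 Γ ∧ Reducible Γ) ∧
    ((∃ h ∈ Def Γ, HasPair (conj h Γ)) → ∀ h ∈ Def Γ, ∀ ε : ℝ, 0 < ε →
      ∃ h' ∈ Def Γ, (∀ x, ‖h' x - h x‖ ≤ ε * ‖x‖) ∧ HasPair (conj h' Γ)) := by
  refine ⟨fun h hh => ⟨conj_cryst hΓ hh, conj_prim hΓ hσ hh, conj_h11 hΓ hh,
    fun q e H hq he hH hps hne h0 => class_syz hΓ hσ hh hq he hH hps hne h0,
    hasPair_iff' (conj_cryst hΓ hh) (conj_prim hΓ hσ hh)⟩, criterion hΓ hσ, ?_⟩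
  rintro ⟨h0, hh0, hp⟩ h hh ε hε
  rw [hasPair_iff (conj_cryst hΓ hh0) (conj_prim hΓ hσ hh0)] at hp
  obtain ⟨h', hh', h1, h2⟩ := dense_def hΓ hh0 hp hh hε
  exact ⟨h', hh', h1, (hasPair_iff (conj_cryst hΓ hh') (conj_prim hΓ hσ hh')).2 h2⟩

end Pool.Agent.Results.MP_e4ecdb_ag.DeformationClasses
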