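import Pool.Agent.MP_e4ecdb_ag.DSeven
import Pool.Agent.MP_e4ecdb_ag.KFour
open Module
open Pool.Agent.MP_e4ecdb_ag.SYZ

namespace Pool.Agent.Results.MP_e4ecdb_ag.Fourfolds

/-- Let `X = V / Γ` be a primitive symplectic fourfold which is a finite quotient of a complex torus,
with symplectic form `σ`, `r = h^{1,1}(X)` (so `b_2(X) = r + 2`) and `g` linear parts. Its
deformations are `X_h = V / (h Γ h⁻¹)`, where `h` is in `Def Γ`: a real-linear automorphism of `V`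
which commutes with the linear parts of `Γ`.

(1) If `b_2(X) < 4`, no `X_h` has a pair (a nef line bundle `L` with `c_1(L) ≠ 0` and `q(L) = 0` for
a Beauville-Bogomolov-Fujiki form `q`).
(2) If `b_2(X) ≥ 4`, the `X_h` with a holomorphic Lagrangian fibration are dense: every `h` in `Def Γ`
is a limit of `h'` in `Def Γ` for which `X_{h'}` has a nef line bundle `L` with `c_1(L) ≠ 0` and
`q(L) = 0` such that `|L^N|` is base point free and defines the Lagrangian fibration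
`X_{h'} → (V / K) / Γ` for all positive multiples `N` of `3 g ^ 2`. -/
theorem result {V : Type} [NormedAddCommGroup V] [NormedSpace ℂ V] [FiniteDimensional ℂ V]
    (hV : finrank ℂ V = 4) (Γ : Subgroup (Equiv.Perm V)) (hΓ : IsCryst Γ)
    (σ : LinearMap.BilinForm ℂ V) (hσ : IsPrimSympl Γ σ) :
    (h11 Γ < 2 → ∀ h ∈ Def Γ, ¬ HasPair (conj h Γ)) ∧
    (2 ≤ h11 Γ → ∀ h ∈ Def Γ, ∀ ε : ℝ, 0 < ε → ∃ h' ∈ Def Γ, (∀ x, ‖h' x - h x‖ ≤ ε * ‖x‖) ∧
      ∃ q e H K, IsBBF (conj h' Γ) q ∧ IsFactor (conj h' Γ) e ∧ IsChern (conj h' Γ) e H ∧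
        IsNef H ∧ H ≠ 0 ∧ q H = 0 ∧ IsLagr σ K ∧
        ∀ N : ℕ, 1 ≤ N → 3 * numLin Γ ^ 2 ∣ N → InducesAt (conj h' Γ) e K N) := by
  have hnt : Nontrivial V := Module.nontrivial_of_finrank_pos (R := ℂ) (by omega)
  constructor
  · intro h1 h hh hp
    have := ((criterion hΓ hσ).1 ⟨h, hh, hp⟩).1
    omega
  · intro h2 h hh ε hε
    obtain ⟨h0, hh0, hp⟩ := (criterion hΓ hσ).2 ⟨h2, four hΓ hσ hV h2⟩
    rw [hasPair_iff (conj_cryst hΓ hh0) (conj_prim hΓ hσ hh0)] at hp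
    obtain ⟨h', hh', e1, e2⟩ := dense_def hΓ hh0 hp hh hε
    obtain ⟨q, e, H, hq, he, hH, hn, hne, h0⟩ :=
      (hasPair_iff (conj_cryst hΓ hh') (conj_prim hΓ hσ hh')).2 e2
    obtain ⟨K, -, hK, hN⟩ := class_syz hΓ hσ hh' hq he hH
      (nef_psef hH.mem hn) hne h0
    exact ⟨h', hh', e1, q, e, H, K, hq, he, hH, hn, hne, h0, hK, hN⟩

end Pool.Agent.Results.MP_e4ecdb_ag.Fourfolds
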