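import Pool.Agent.MP_e4ecdb_ag.QPubProof
open Module
open Pool.Agent.MP_e4ecdb_ag.SYZ

namespace Pool.Agent.Results.MP_e4ecdb_ag.NumericalTrichotomy

/-- Let `X = V / Γ` be a finite quotient of a complex torus that is a primitive symplectic variety of
dimension `2 n > 0`, let `g` be the number of linear parts of `Γ`, and let `N` be any positive multiple
of `3 g ^ 2`.

(1) The real vector space `H11 Γ = H^{1,1}(X, ℝ)` of `Γ`-invariant hermitian forms has dimension
`r = 1`, `2` or `4`. `g` divides `|GL_(4n)(𝔽₃)|`. If `H` is an integral class, `2 g ^ 3 H` is `c_1` of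
a line bundle on `X`.
(2) Beauville-Bogomolov-Fujiki forms exist, and every such `q` has signature `(1, r - 1)`; `q(H) > 0` if
and only if `H` or `-H` is a Kaehler class; `q(H) ≥ 0` if and only if `H` or `-H` is nef; `q(H) = 0` if
and only if `H` is degenerate (`Cones`). For EVERY line bundle `L` on `X` and `H = c_1(L)`
(`Trichotomy`): if `q(H) > 0`, then `|L^N|` or `|L^(-N)|` is base point free and injective on `X`; if
`q(H) = 0` and `H ≠ 0`, then `|L^N|` or `|L^(-N)|` (and then `L` is not pseudoeffective) is base point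
free and defines the map `X → (V / K) / Γ`, where `K`, the radical of `H`, is in `RatStable Γ`; if
`q(H) < 0`, then no `L^k`, `k ≠ 0`, has a nonzero section; if `H = 0`, then `L^N` is trivial.
(3) Every `K` in `RatStable Γ` (a `Γ`-stable complex subspace `K ≠ 0, V` spanned by lattice vectors) is
Lagrangian and is the radical of an integral nef class, unique up to real factors. There are `0`, `1`,
`2` or infinitely many such `K`, none if `r = 1`, at most two if `r = 2`.
(4) Either some line bundle on `X` is positive, with `|L^N|` injective; or there is exactly one `K` in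
`RatStable Γ` and the quotients of sections of line bundles are constant along `K`; or there is no such
`K` and all these quotients are constant. -/
theorem result {V : Type} [NormedAddCommGroup V] [NormedSpace ℂ V] [FiniteDimensional ℂ V]
    [Nontrivial V] (Γ : Subgroup (Equiv.Perm V)) (hΓ : IsCryst Γ)
    (σ : LinearMap.BilinForm ℂ V) (hσ : IsPrimSympl Γ σ) :
    ((h11 Γ = 1 ∨ h11 Γ = 2 ∨ h11 Γ = 4) ∧
      numLin Γ ∣ Nat.card (Matrix.GeneralLinearGroup (Fin (2 * finrank ℂ V)) (ZMod 3)) ∧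
      ∀ H ∈ H11 Γ, IsInt Γ H → ∃ e, IsFactor Γ e ∧ (∀ γ ∈ Γ, ∀ v, γ v = v → e γ v = 1) ∧
        IsChern Γ e ((2 * numLin Γ ^ 3) • H)) ∧
    ((∃ q, IsBBF Γ q) ∧ ∀ q, IsBBF Γ q → Cones Γ q ∧
      ∀ e H, IsFactor Γ e → IsChern Γ e H → Trichotomy Γ q e H) ∧
    ((∀ K ∈ RatStable Γ, IsLagr σ K ∧ IsRay Γ K) ∧
      ((RatStable Γ).Finite → (RatStable Γ).ncard ≤ 2) ∧
      (h11 Γ = 1 → RatStable Γ = ∅) ∧ (h11 Γ = 2 → (RatStable Γ).Finite)) ∧
    ((∃ e H, IsFactor Γ e ∧ IsChern Γ e H ∧ IsPos H ∧ Induces Γ e ⊥) ∨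
      (∃ K, RatStable Γ = {K} ∧ ConstAlong Γ K) ∨
      (RatStable Γ = ∅ ∧ ConstAlong Γ ⊤)) := by
  obtain ⟨c1, c2, c3, c4, c5⟩ := card hΓ hσ
  exact ⟨⟨c1, c5, fun H hH hint => bundle hΓ hH hint⟩,
    ⟨exists_bbf hΓ hσ, fun q hq => ⟨cones hΓ hσ hq, fun e H he hH => tri hΓ hσ hq he hH⟩⟩,
    ⟨fun K hK => lagr_ray hΓ hσ hK, c2, c3, c4⟩, mero hΓ hσ⟩

end Pool.Agent.Results.MP_e4ecdb_ag.NumericalTrichotomy
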